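import Pool.Agent.H41.AV.Defs

set_option autoImplicit false

/-!
# First and second moments of the numbers of rows with a given symbol in a class
-/

namespace Pool.Agent.H632.AVMOM

open Equiv Finset Pool.Agent.H41.AV
open scoped Nat

section

variable {G : Type} [AddCommGroup G] [Fintype G] [DecidableEq G]

lemma cnt_eq (A : G → G → Option G) (ρ τ : Perm G) (x y : G) :
    cnt A ρ τ x y = ((cells A x).filter fun e => τ e.2 = ρ e.1 + y).card := by
  unfold cnt cells
  refine Finset.card_nbij' (fun i => (i, τ.symm (ρ i + y))) Prod.fst ?_ ?_ ?_ ?_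
  · intro i hi
    simpa using hi
  · rintro ⟨i, j⟩ h
    simp only [coe_filter, mem_filter, mem_univ, true_and, Set.mem_ofPred_eq] at h ⊢
    rw [← h.2, Equiv.symm_apply_apply]
    exact h.1
  · intro i hi
    rfl
  · rintro ⟨i, j⟩ h
    simp only [coe_filter, mem_filter, mem_univ, true_and, Set.mem_ofPred_eq] at h
    simp [← h.2]

omit [AddCommGroup G] in
lemma card_apply_eq (a b : G) :
    Fintype.card G * (univ.filter fun τ : Perm G => τ a = b).card = (Fintype.card G)! := by
  have h1 : ∀ b', (univ.filter fun τ : Perm G => τ a = b').card =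
      (univ.filter fun τ : Perm G => τ a = b).card := by
    intro b'
    refine Finset.card_nbij' (fun τ => swap b b' * τ) (fun τ => swap b b' * τ) ?_ ?_ ?_ ?_
    · intro τ hτ
      simp only [coe_filter, mem_univ, true_and, Set.mem_ofPred_eq] at hτ ⊢
      simp [hτ]
    · intro τ hτ
      simp only [coe_filter, mem_univ, true_and, Set.mem_ofPred_eq] at hτ ⊢
      simp [hτ]
    · intro τ _
      simp [← mul_assoc]
    · intro τ _
      simp [← mul_assoc]
  have h2 : (univ : Finset (Perm G)).card =
      ∑ b' : G, (univ.filter fun τ : Perm G => τ a = b').card :=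
    Finset.card_eq_sum_card_fiberwise (f := fun τ : Perm G => τ a) (t := univ) (by simp)
  rw [Finset.sum_congr rfl (fun b' _ => h1 b'), Finset.sum_const, Finset.card_univ,
    Finset.card_univ, Fintype.card_perm, smul_eq_mul] at h2
  exact h2.symm

lemma sum_pairs (P : Finset ((G × G) × (G × G))) (y y' : G) :
    ∑ ρ : Perm G, ∑ τ : Perm G,
      (P.filter fun p => τ p.1.2 = ρ p.1.1 + y ∧ τ p.2.2 = ρ p.2.1 + y').card =
    ∑ p ∈ P, (univ.filter fun q : Perm G × Perm G =>
      q.2 p.1.2 = q.1 p.1.1 + y ∧ q.2 p.2.2 = q.1 p.2.1 + y').card := by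
  simp only [Finset.card_filter, Fintype.sum_prod_type]
  rw [Finset.sum_comm]
  refine (Finset.sum_congr rfl fun τ _ => Finset.sum_comm).trans ?_
  rw [Finset.sum_comm]
  refine Finset.sum_congr rfl fun p _ => ?_
  rw [Finset.sum_comm]

end

theorem mom (hp : S_PAIR) : S_MOM := by
  intro G _ _ _ A x
  refine ⟨?_, ?_, ?_⟩
  · intro y
    simp only [cnt_eq, Finset.card_filter]
    have h1 : ∀ ρ : Perm G, Fintype.card G * ∑ τ : Perm G, ∑ e ∈ cells A x,
        (if τ e.2 = ρ e.1 + y then 1 else 0) = (cells A x).card * (Fintype.card G)! := by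
      intro ρ
      rw [Finset.sum_comm, Finset.mul_sum]
      have h2 : ∀ e ∈ cells A x, Fintype.card G * ∑ τ : Perm G,
          (if τ e.2 = ρ e.1 + y then 1 else 0) = (Fintype.card G)! := by
        intro e _
        rw [← Finset.card_filter]
        exact card_apply_eq e.2 (ρ e.1 + y)
      rw [Finset.sum_congr rfl h2, Finset.sum_const, smul_eq_mul]
    rw [Finset.mul_sum, Finset.sum_congr rfl (fun ρ _ => h1 ρ), Finset.sum_const,
      Finset.card_univ, Fintype.card_perm, smul_eq_mul]
    ring
  · intro y y' hy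
    have h1 : ∀ ρ τ : Perm G, cnt A ρ τ x y * cnt A ρ τ x y' =
        ((cells A x ×ˢ cells A x).filter
          fun p => τ p.1.2 = ρ p.1.1 + y ∧ τ p.2.2 = ρ p.2.1 + y').card := by
      intro ρ τ
      rw [cnt_eq, cnt_eq, ← Finset.card_product, ← Finset.filter_product]
    simp only [h1]
    rw [sum_pairs, Finset.mul_sum]
    calc _ ≤ ∑ p ∈ cells A x ×ˢ cells A x, (Fintype.card G)! ^ 2 := by
          refine Finset.sum_le_sum fun p _ => ?_
          by_cases hpp : p.1 = p.2
          · have : (univ.filter fun q : Perm G × Perm G =>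
                q.2 p.1.2 = q.1 p.1.1 + y ∧ q.2 p.2.2 = q.1 p.2.1 + y') = ∅ := by
              rw [Finset.filter_eq_empty_iff]
              rintro q _ ⟨h2, h3⟩
              rw [← hpp, h2] at h3
              exact hy (add_left_cancel h3)
            rw [this]
            simp
          · rw [mul_comm]
            exact hp G p.1.1 p.1.2 p.2.1 p.2.2 y y' hpp
      _ = _ := by
          rw [Finset.sum_const, Finset.card_product, smul_eq_mul]
          ring
  · intro y
    have h1 : ∀ ρ τ : Perm G, cnt A ρ τ x y * (cnt A ρ τ x y - 1) =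
        (((cells A x).offDiag).filter
          fun p => τ p.1.2 = ρ p.1.1 + y ∧ τ p.2.2 = ρ p.2.1 + y).card := by
      intro ρ τ
      rw [cnt_eq, Nat.mul_sub_one, ← Finset.offDiag_card]
      congr 1
      ext p
      simp only [Finset.mem_offDiag, Finset.mem_filter]
      tauto
    simp only [h1]
    rw [sum_pairs, Finset.mul_sum]
    calc _ ≤ ∑ p ∈ (cells A x).offDiag, (Fintype.card G)! ^ 2 := by
          refine Finset.sum_le_sum fun p hpm => ?_
          rw [mul_comm]
          exact hp G p.1.1 p.1.2 p.2.1 p.2.2 y y (Finset.mem_offDiag.1 hpm).2.2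
      _ ≤ _ := by
          rw [Finset.sum_const, Finset.offDiag_card, smul_eq_mul]
          refine Nat.mul_le_mul_right _ ?_
          rw [pow_two]
          exact Nat.sub_le _ _

end Pool.Agent.H632.AVMOM
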